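import Pool.Agent.Helper84.OB.Stmts

set_option autoImplicit false

universe u

open Set Pool.Agent.Helper84.BT Pool.Agent.Helper84.OB
open scoped Matroid

namespace Pool.Agent.Helper8.OB

theorem st_NU : ST_NU.{u} := by
  intro α _ M U F hF h1 h2
  have a := nullity_cyc (M := M) hF
  have b := nullity_mono (M := M) h1
  have c := nullity_mono (M := M) h2
  have d := rk_le_ncard (M := M) U
  have e := rk_le_ncard (M := M) F
  have f := rk_le_ncard (M := M) (cyc M F)
  omega

end Pool.Agent.Helper8.OB
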